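import Pool.Agent.N822.OG.Asm
import Pool.Agent.N865.OG.Fc
import Pool.Agent.N879.OG.Dec
import Pool.Agent.N769.OG.CNT
import Pool.Agent.N769.OG.CLS
import Pool.Agent.N556.OG.LB
import Pool.Agent.N707.OG.HX
import Pool.Agent.N152.OG.K3
import Pool.Agent.N75.OG.Str
import Pool.Agent.N547.OG.SizGrd
import Pool.Agent.N547.OG.Fin
import Pool.Agent.N547.OG.Desc
import Pool.Agent.N82.OG.Par

/-!
# Decomposition families and orientations without a copy (MP_d8cc50_co, Q1: NO)

An oriented graph `Dv` on nine vertices (underlying graph `Hg`, chromatic number `4`) whose directed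
decomposition family consists of all orientations of all members of the decomposition family of
`Hg`, but for all large `n` some graph on `n` vertices has more than `2 ^ ex(n, Hg)` orientations
without a copy of `Dv`.

The definitions (`IsOri`, `HasCopy`, `Dcount`, `Dmax`, `GM`, `InDec`, `InDecVec`, `arcs`, `Dv`, `Hg`)
are in `Pool.Agent.N822.OG.Stm`.
-/

namespace Pool.Agent.Results.MP_d8cc50_co.ThreePartPattern

open SimpleGraph Pool.Agent.N822.OG

/-- The statement of Q1. -/
def Conjecture : Prop :=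
  ∀ (W : Type) [Finite W] (H : SimpleGraph W) (D : W → W → Prop) (p : ℕ),
    IsOri H D → (∃ u v, H.Adj u v) → H.chromaticNumber = ((p + 1 : ℕ) : ℕ∞) →
    (∀ (V : Type) [Finite V] (M : SimpleGraph V) (O : V → V → Prop),
      InDecVec H D p M O ↔ (InDec H p M ∧ IsOri M O)) →
    ∃ n₀ : ℕ, ∀ n : ℕ, n₀ ≤ n → Dmax n D = 2 ^ extremalNumber n H

/-- (1) `Dv` is an orientation of `Hg`, `χ(Hg) = 4`, every orientation of every member of the
decomposition family of `Hg` is in the directed decomposition family of `Dv` (and conversely), and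
`D(n, Dv) > 2 ^ ex(n, Hg)` for all sufficiently large `n`.
(2) So the statement of Q1 is false. -/
theorem result :
    (IsOri Hg Dv ∧ Hg.chromaticNumber = 4 ∧
      (∀ (V : Type) [Finite V] (M : SimpleGraph V) (O : V → V → Prop),
        InDecVec Hg Dv 3 M O ↔ (InDec Hg 3 M ∧ IsOri M O)) ∧
      ∃ N : ℕ, ∀ n : ℕ, N ≤ n → 2 ^ extremalNumber n Hg < Dmax n Dv) ∧
    ¬ Conjecture := by
  have key : S_GOAL := goal Pool.Agent.N865.OG.isOri Pool.Agent.N865.OG.chr
    (Pool.Agent.N879.OG.dec1 Pool.Agent.N865.OG.fc1) Pool.Agent.N879.OG.dec2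
    (Pool.Agent.N556.OG.lb Pool.Agent.N769.OG.cnt Pool.Agent.N865.OG.fc2 Pool.Agent.N769.OG.eg)
    Pool.Agent.N707.OG.HX
    (Pool.Agent.N82.OG.par
      (Pool.Agent.N75.OG.str Pool.Agent.N152.OG.k3 Pool.Agent.N769.OG.cls)
      Pool.Agent.N547.OG.SizGrd.siz Pool.Agent.N547.OG.SizGrd.grd)
    Pool.Agent.N547.OG.Fin.fin Pool.Agent.N547.OG.Desc.desc
  refine ⟨key, fun hcon => ?_⟩
  obtain ⟨h1, h2, h3, N, hN⟩ := key
  obtain ⟨n₀, hn₀⟩ := hcon (Fin 9) Hg Dv 3 h1 ⟨5, 0, by decide⟩ (by rw [h2]; norm_num) h3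
  have h4 := hN (max N n₀) (le_max_left _ _)
  have h5 := hn₀ (max N n₀) (le_max_right _ _)
  omega

end Pool.Agent.Results.MP_d8cc50_co.ThreePartPattern
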